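import Pool.Agent.Y879.NP.One

set_option autoImplicit false

/-!
Infinite sets `B`, `C` such that every `n ∈ B + C` has at most `f n` prime factors (`f → ∞` arbitrarily slowly), and
such that every other new element of `B` (of `C`) gives at least `c log n` actual primes with the earlier elements of `C`
(of `B`).
-/

namespace Pool.Agent.Results.MP_3532bd_nt.SumsetNearlyPrime

open Finset Filter
open Pool.Agent.Y879.NP

/-- the local condition -/
def Loc (B C : Finset ℕ) : Prop := ∀ p : ℕ, p.Prime → ∃ u v : ℕ, ¬ p ∣ u + v ∧ (∀ b ∈ B, ¬ p ∣ u + b) ∧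
  ∀ c ∈ C, ¬ p ∣ v + c

lemma Loc.symm {B C : Finset ℕ} (h : Loc B C) : Loc C B := by
  intro p hp
  obtain ⟨u, v, h1, h2, h3⟩ := h p hp
  exact ⟨v, u, by rwa [add_comm], h3, h2⟩

lemma add_new {f : ℕ → ℕ} (hf : Tendsto f atTop atTop) {c : ℝ} {n0 : ℕ}
    (hsets : ∀ (S : Finset ℕ) (y : ℕ), n0 ≤ S.card → S ⊆ range y →
      ∀ a : ℕ → ℕ, (∀ p : ℕ, p.Prime → p ≤ y → ∀ s ∈ S, ¬ p ∣ a p + s) →
      ∃ δ κ : ℝ, 0 < δ ∧ 0 < κ ∧ ∀ᶠ X : ℝ in atTop, ∃ m : ℕ, X < m ∧ (m : ℝ) ≤ 3 * X ∧
        (∀ p : ℕ, p.Prime → p ≤ y → m ≡ a p [MOD p]) ∧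
        (∀ s ∈ S, ∀ p : ℕ, p.Prime → p ∣ m + s → X ^ δ < p) ∧
        c * Real.log S.card ≤ ((S.filter (fun s => (m + s).Prime)).card : ℝ))
    (B C : Finset ℕ) (hB : n0 ≤ B.card) (hL : Loc B C) :
    ∃ m : ℕ, 0 < m ∧ (∀ b ∈ B, b < m) ∧ (∀ x ∈ C, x < m) ∧ Loc B (insert m C) ∧
      (∀ b ∈ B, (m + b).primeFactorsList.length ≤ f (m + b)) ∧
      c * Real.log B.card ≤ ((B.filter (fun b => (m + b).Prime)).card : ℝ) := by
  classical
  choose! u v huv hu hv using hL
  obtain ⟨y, hy⟩ : ∃ y, y = B.sup id + B.card + C.card + 2 := ⟨_, rfl⟩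
  have hBy : B ⊆ range y := by
    intro b hb
    have h1 : b ≤ B.sup id := Finset.le_sup (f := id) hb
    exact mem_range.2 (by omega)
  obtain ⟨δ, κ, hδ, hκ, hev⟩ := hsets B y hB hBy u (fun p hp _ s hs => hu p hp s hs)
  obtain ⟨r, hr⟩ := few y δ hδ
  obtain ⟨N, hN⟩ := eventually_atTop.1 (hf.eventually_ge_atTop r)
  obtain ⟨X, hX⟩ := (hev.and (hr.and (eventually_ge_atTop ((N : ℝ) + y + (C.sup id : ℕ) + 1)))).exists
  obtain ⟨⟨m, hm1, hm2, hm3, hm4, hm5⟩, hX2, hX3⟩ := hX
  have hmX : (N : ℝ) + y + (C.sup id : ℕ) + 1 < m := lt_of_le_of_lt hX3 hm1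
  have hmN : N + y + C.sup id + 1 < m := by exact_mod_cast hmX
  refine ⟨m, by omega, ?_, ?_, ?_, ?_, hm5⟩
  · intro b hb
    have := mem_range.1 (hBy hb)
    omega
  · intro x hx
    have h1 : x ≤ C.sup id := Finset.le_sup (f := id) hx
    omega
  · intro p hp
    by_cases hpy : p ≤ y
    · refine ⟨u p, v p, huv p hp, hu p hp, ?_⟩
      intro x hx
      rcases mem_insert.1 hx with rfl | hx
      · intro hd
        have h1 := hm3 p hp hpy
        have h2 : v p + x ≡ u p + v p [MOD p] := by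
          rw [add_comm (u p)]
          exact Nat.ModEq.add_left _ h1
        exact huv p hp ((h2.dvd_iff dvd_rfl).1 hd)
      · exact hv p hp x hx
    · obtain ⟨w, hw⟩ := Pool.Agent.Y879.PR.free_class p (insert (u p) (insert m C)) (by
        have h1 := Finset.card_insert_le (u p) (insert m C)
        have h2 := Finset.card_insert_le m C
        omega)
      refine ⟨u p, w, ?_, hu p hp, ?_⟩
      · have := hw (u p) (mem_insert_self _ _)
        rwa [add_comm] at this
      · intro x hx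
        exact hw x (mem_insert_of_mem hx)
  · intro b hb
    have h1 := mem_range.1 (hBy hb)
    have h2 := hX2 m b (by omega) (by omega) hm2 (hm4 b hb)
    exact h2.trans (hN (m + b) (by omega))

lemma add_prime {f : ℕ → ℕ} (hf : Tendsto f atTop atTop) (B C : Finset ℕ) (hL : Loc B C) (t : ℕ) (ht : t ∈ B) :
    ∃ m : ℕ, 0 < m ∧ (∀ b ∈ B, b < m) ∧ (∀ x ∈ C, x < m) ∧ Loc B (insert m C) ∧
      (∀ b ∈ B, (m + b).primeFactorsList.length ≤ f (m + b)) ∧ (m + t).Prime := by
  classical
  choose! u v huv hu hv using hL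
  obtain ⟨y, hy⟩ : ∃ y, y = B.sup id + B.card + C.card + 2 := ⟨_, rfl⟩
  obtain ⟨s₀, hs₀⟩ := crt y v
  obtain ⟨s', hs', hs'B⟩ : ∃ s', (∀ p : ℕ, p.Prime → p ≤ y → s' ≡ v p [MOD p]) ∧ s' ∉ B := by
    refine ⟨s₀ + primorial y * y, ?_, ?_⟩
    · intro p hp hpy
      have h1 : p ∣ primorial y * y := Dvd.dvd.mul_right (Pool.Agent.Y879.PR.dvd_pri hp hpy) y
      have h2 : s₀ + primorial y * y ≡ s₀ + 0 [MOD p] :=
        Nat.ModEq.add_left _ ((Nat.modEq_zero_iff_dvd).2 h1)
      exact h2.trans (hs₀ p hp hpy)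
    · intro hmem
      have h1 : s₀ + primorial y * y ≤ B.sup id := Finset.le_sup (f := id) hmem
      have h2 : y ≤ primorial y * y := Nat.le_mul_of_pos_left y (primorial_pos y)
      omega
  have hadm : ∀ q : ℕ, q.Prime → ∃ a : ℕ, ∀ s ∈ insert s' B, ¬ q ∣ a + s := by
    intro q hq
    by_cases hqy : q ≤ y
    · refine ⟨u q, ?_⟩
      intro s hs
      rcases mem_insert.1 hs with rfl | hs
      · intro hd
        have h2 : u q + s ≡ u q + v q [MOD q] := Nat.ModEq.add_left _ (hs' q hq hqy)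
        exact huv q hq ((h2.dvd_iff dvd_rfl).1 hd)
      · exact hu q hq s hs
    · exact Pool.Agent.Y879.PR.free_class q _ (by
        have := Finset.card_insert_le s' B
        omega)
  have hc2 : 2 ≤ (insert s' B).card := by
    rw [card_insert_of_notMem hs'B]
    have : 0 < B.card := Finset.card_pos.2 ⟨t, ht⟩
    omega
  obtain ⟨r, hr⟩ := one_prime_set (insert s' B) hc2 hadm t (mem_insert_of_mem ht)
  obtain ⟨N, hN⟩ := eventually_atTop.1 (hf.eventually_ge_atTop r)
  obtain ⟨m, hm1, hm2, hm3, hm4⟩ := hr (N + y + C.sup id + 1)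
  refine ⟨m, by omega, ?_, ?_, ?_, ?_, hm2⟩
  · intro b hb
    have h1 : b ≤ B.sup id := Finset.le_sup (f := id) hb
    omega
  · intro x hx
    have h1 : x ≤ C.sup id := Finset.le_sup (f := id) hx
    omega
  · intro p hp
    by_cases hpy : p ≤ y
    · refine ⟨u p, v p, huv p hp, hu p hp, ?_⟩
      intro x hx
      rcases mem_insert.1 hx with rfl | hx
      · intro hd
        have h1 := hm4 p hp (by omega) s' (mem_insert_self _ _)
        have h2 : x + s' ≡ v p + x [MOD p] := by
          rw [add_comm (v p)]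
          exact Nat.ModEq.add_left _ (hs' p hp hpy)
        exact h1 ((h2.dvd_iff dvd_rfl).2 hd)
      · exact hv p hp x hx
    · obtain ⟨w, hw⟩ := Pool.Agent.Y879.PR.free_class p (insert (u p) (insert m C)) (by
        have h1 := Finset.card_insert_le (u p) (insert m C)
        have h2 := Finset.card_insert_le m C
        omega)
      refine ⟨u p, w, ?_, hu p hp, ?_⟩
      · have := hw (u p) (mem_insert_self _ _)
        rwa [add_comm] at this
      · intro x hx
        exact hw x (mem_insert_of_mem hx)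
  · intro b hb
    exact (hm3 b (mem_insert_of_mem hb)).trans (hN (m + b) (by omega))

/-- the initial sets -/
lemma start (N : ℕ) : ∃ B C : Finset ℕ, B.card = N ∧ C.card = N ∧ Loc B C := by
  classical
  obtain ⟨M, hM⟩ : ∃ M, M = primorial (2 * N + 2) := ⟨_, rfl⟩
  have hM0 : 0 < M := hM ▸ primorial_pos _
  have c1 : ((range N).image (fun i => M * i)).card = N := by
    rw [Finset.card_image_of_injective _ (fun a b hab => Nat.eq_of_mul_eq_mul_left hM0 hab), card_range]
  have c2 : ((range N).image (fun i => M * i + 1)).card = N := by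
    rw [Finset.card_image_of_injective _ (fun a b hab => by
      have h : M * a + 1 = M * b + 1 := hab
      exact Nat.eq_of_mul_eq_mul_left hM0 (by omega)), card_range]
  refine ⟨(range N).image (fun i => M * i), (range N).image (fun i => M * i + 1), c1, c2, ?_⟩
  intro p hp
  by_cases hpN : p ≤ 2 * N + 2
  · have hd : p ∣ M := hM ▸ Pool.Agent.Y879.PR.dvd_pri hp hpN
    have hk : ∀ i, ¬ p ∣ M * i + 1 := by
      intro i h
      have h1 := (Nat.dvd_add_right (Dvd.dvd.mul_right hd i)).1 h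
      exact hp.one_lt.ne' (Nat.dvd_one.1 h1)
    refine ⟨1, 0, ?_, ?_, ?_⟩
    · simpa using hk 0
    · intro b hb
      obtain ⟨i, -, rfl⟩ := mem_image.1 hb
      have := hk i
      rwa [add_comm] at this
    · intro b hb
      obtain ⟨i, -, rfl⟩ := mem_image.1 hb
      simpa using hk i
  · obtain ⟨u, hu⟩ := Pool.Agent.Y879.PR.free_class p ((range N).image (fun i => M * i)) (by omega)
    obtain ⟨v, hv⟩ := Pool.Agent.Y879.PR.free_class p (insert u ((range N).image (fun i => M * i + 1))) (by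
      have := Finset.card_insert_le u ((range N).image (fun i => M * i + 1))
      omega)
    refine ⟨u, v, ?_, hu, fun x hx => hv x (mem_insert_of_mem hx)⟩
    have := hv u (mem_insert_self _ _)
    rwa [add_comm] at this

/-- **Infinite sumsets all whose elements have few prime factors, with many primes everywhere.** There is an
absolute constant `c > 0` such that for every `f` tending to infinity there are infinite sequences `b 0 < b 1 < ...`
and `g 0 < g 1 < ...` of positive integers with: (1) `b i + g j` has at most `f (b i + g j)` prime factors, for ALL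
`i, j`; (2) for all large even `n` at least `c log n` of the numbers `b i + g n`, `i ≤ n`, are prime, and at least
`c log n` of the numbers `b n + g j`, `j < n`, are prime; (3) for every `j` there are infinitely many `i` with
`b i + g j` prime, and for every `i` there are infinitely many `j` with `b i + g j` prime. -/
theorem result : ∃ c : ℝ, 0 < c ∧ ∀ f : ℕ → ℕ, Tendsto f atTop atTop → ∃ b g : ℕ → ℕ,
    StrictMono b ∧ StrictMono g ∧ 0 < b 0 ∧ 0 < g 0 ∧
    (∀ i j : ℕ, (b i + g j).primeFactorsList.length ≤ f (b i + g j)) ∧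
    (∃ n₁ : ℕ, ∀ n : ℕ, n₁ ≤ n → Even n →
      c * Real.log n ≤ (((range (n + 1)).filter (fun i => (b i + g n).Prime)).card : ℝ) ∧
      c * Real.log n ≤ (((range n).filter (fun j => (b n + g j).Prime)).card : ℝ)) ∧
    (∀ j : ℕ, {i : ℕ | (b i + g j).Prime}.Infinite) ∧ ∀ i : ℕ, {j : ℕ | (b i + g j).Prime}.Infinite := by
  classical
  obtain ⟨c, n0, hc, hsets0⟩ := Pool.Agent.Y879.NP.sets
  have hsets : ∀ (S : Finset ℕ) (y : ℕ), n0 ≤ S.card → S ⊆ range y →
      ∀ a : ℕ → ℕ, (∀ p : ℕ, p.Prime → p ≤ y → ∀ s ∈ S, ¬ p ∣ a p + s) →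
      ∃ δ κ : ℝ, 0 < δ ∧ 0 < κ ∧ ∀ᶠ X : ℝ in atTop, ∃ m : ℕ, X < m ∧ (m : ℝ) ≤ 3 * X ∧
        (∀ p : ℕ, p.Prime → p ≤ y → m ≡ a p [MOD p]) ∧
        (∀ s ∈ S, ∀ p : ℕ, p.Prime → p ∣ m + s → X ^ δ < p) ∧
        c * Real.log S.card ≤ ((S.filter (fun s => (m + s).Prime)).card : ℝ) := by
    intro S y h1 h2 a h3
    obtain ⟨δ, κ, hδ, hκ, hev⟩ := hsets0 S y h1 h2 a h3
    refine ⟨δ, κ, hδ, hκ, ?_⟩
    filter_upwards [hev, eventually_gt_atTop 1] with X hX hX1
    have hlog : 0 < Real.log X := Real.log_pos hX1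
    have hpos : (0 : ℝ) < κ * X / Real.log X ^ S.card := by positivity
    have hcard := lt_of_lt_of_le hpos hX
    obtain ⟨m, hm⟩ := Finset.card_pos.1 (by exact_mod_cast hcard)
    obtain ⟨q1, q2, q3, q4, q5⟩ := mem_filter.1 hm
    rw [mem_Icc] at q1
    have hX0 : (0 : ℝ) ≤ 3 * X := by linarith
    exact ⟨m, q2, (Nat.le_floor_iff hX0).1 q1.2, q3, q4, q5⟩
  refine ⟨c / 2, by positivity, ?_⟩
  intro f hf
  -- one new element, with the mode `o`
  have one : ∀ (o : Option ℕ) (B C : Finset ℕ), n0 ≤ B.card → Loc B C →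
      ∃ m : ℕ, 0 < m ∧ (∀ b ∈ B, b < m) ∧ (∀ x ∈ C, x < m) ∧ Loc B (insert m C) ∧
      (∀ b ∈ B, (m + b).primeFactorsList.length ≤ f (m + b)) ∧
      (o = none → c * Real.log B.card ≤ ((B.filter (fun b => (m + b).Prime)).card : ℝ)) ∧
      (∀ t ∈ B, o = some t → (m + t).Prime) := by
    intro o B C h1 h2
    by_cases ho : ∃ t ∈ B, o = some t
    · obtain ⟨t, ht, rfl⟩ := ho
      obtain ⟨m, q1, q2, q3, q4, q5, q6⟩ := add_prime hf B C h2 t ht
      refine ⟨m, q1, q2, q3, q4, q5, fun h => by simp at h, ?_⟩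
      intro t' _ h
      have : t = t' := by simpa using h
      rw [← this]
      exact q6
    · obtain ⟨m, q1, q2, q3, q4, q5, q6⟩ := add_new hf hsets B C h1 h2
      exact ⟨m, q1, q2, q3, q4, q5, fun _ => q6, fun t ht h => absurd ⟨t, ht, h⟩ ho⟩
  have step : ∀ (o : Option ℕ) (B C : Finset ℕ), ∃ b g : ℕ, (n0 ≤ B.card ∧ n0 ≤ C.card ∧ Loc B C) →
      (n0 ≤ (insert b B).card ∧ n0 ≤ (insert g C).card ∧ Loc (insert b B) (insert g C)) ∧
      0 < b ∧ 0 < g ∧ (∀ x ∈ B, x < b) ∧ (∀ x ∈ C, x < g) ∧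
      (∀ x ∈ C, (b + x).primeFactorsList.length ≤ f (b + x)) ∧
      (∀ x ∈ insert b B, (x + g).primeFactorsList.length ≤ f (x + g)) ∧
      (o = none → c * Real.log C.card ≤ ((C.filter (fun x => (b + x).Prime)).card : ℝ)) ∧
      (o = none → c * Real.log (insert b B).card ≤ (((insert b B).filter (fun x => (x + g).Prime)).card : ℝ)) ∧
      (∀ t ∈ C, o = some t → (b + t).Prime) ∧ (∀ t ∈ insert b B, o = some t → (t + g).Prime) := by
    intro o B C
    by_cases h : n0 ≤ B.card ∧ n0 ≤ C.card ∧ Loc B C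
    · obtain ⟨h1, h2, h3⟩ := h
      obtain ⟨b, hb0, hb1, hb2, hb3, hb4, hb5, hb6⟩ := one o C B h2 h3.symm
      have h1' : n0 ≤ (insert b B).card := h1.trans (card_le_card (subset_insert _ _))
      obtain ⟨g, hg0, hg1, hg2, hg3, hg4, hg5, hg6⟩ := one o (insert b B) C h1' hb3.symm
      have h2' : n0 ≤ (insert g C).card := h2.trans (card_le_card (subset_insert _ _))
      refine ⟨b, g, fun _ => ⟨⟨h1', h2', hg3⟩, hb0, hg0, hb2, hg2, hb4, ?_, hb5, ?_, hb6, ?_⟩⟩
      · intro x hx
        rw [add_comm]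
        exact hg4 x hx
      · simp only [add_comm _ g]
        exact hg5
      · intro t ht h
        rw [add_comm]
        exact hg6 t ht h
    · exact ⟨0, 0, fun h' => absurd h' h⟩
  choose β γ hstep using step
  obtain ⟨md, hmd⟩ : ∃ md : ℕ → Option ℕ, ∀ n, md n = if Even n then none else some (Nat.unpair (n / 2)).1 :=
    ⟨_, fun _ => rfl⟩
  obtain ⟨B0, C0, hB0, hC0, hL0⟩ := start n0
  obtain ⟨st, hst0, hst1⟩ : ∃ st : ℕ → Finset ℕ × Finset ℕ, st 0 = (B0, C0) ∧ ∀ n, st (n + 1) =
      (insert (β (md n) (st n).1 (st n).2) (st n).1, insert (γ (md n) (st n).1 (st n).2) (st n).2) :=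
    ⟨fun n => Nat.rec (B0, C0) (fun k s => (insert (β (md k) s.1 s.2) s.1, insert (γ (md k) s.1 s.2) s.2)) n, rfl,
      fun _ => rfl⟩
  obtain ⟨b, hb⟩ : ∃ b : ℕ → ℕ, ∀ n, b n = β (md n) (st n).1 (st n).2 := ⟨_, fun _ => rfl⟩
  obtain ⟨g, hg⟩ : ∃ g : ℕ → ℕ, ∀ n, g n = γ (md n) (st n).1 (st n).2 := ⟨_, fun _ => rfl⟩
  have e1 : ∀ n, (st (n + 1)).1 = insert (b n) (st n).1 := fun n => by rw [hst1, hb]
  have e2 : ∀ n, (st (n + 1)).2 = insert (g n) (st n).2 := fun n => by rw [hst1, hg]
  have hinv : ∀ n, n0 ≤ (st n).1.card ∧ n0 ≤ (st n).2.card ∧ Loc (st n).1 (st n).2 := by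
    intro n
    induction n with
    | zero => rw [hst0]; exact ⟨hB0.ge, hC0.ge, hL0⟩
    | succ n ih =>
      rw [e1, e2, hb, hg]
      exact (hstep (md n) _ _ ih).1
  have hS := fun n => hstep (md n) (st n).1 (st n).2 (hinv n)
  simp only [← hb, ← hg] at hS
  have m1 : ∀ i n, i < n → b i ∈ (st n).1 := by
    intro i n hin
    induction n with
    | zero => omega
    | succ n ih =>
      rw [e1]
      rcases Nat.lt_succ_iff_lt_or_eq.1 hin with h | rfl
      · exact mem_insert_of_mem (ih h)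
      · exact mem_insert_self _ _
  have m2 : ∀ i n, i < n → g i ∈ (st n).2 := by
    intro i n hin
    induction n with
    | zero => omega
    | succ n ih =>
      rw [e2]
      rcases Nat.lt_succ_iff_lt_or_eq.1 hin with h | rfl
      · exact mem_insert_of_mem (ih h)
      · exact mem_insert_self _ _
  have u1 : ∀ n, ∀ x ∈ (st n).1, x ∈ B0 ∨ ∃ i < n, x = b i := by
    intro n
    induction n with
    | zero => intro x hx; rw [hst0] at hx; exact Or.inl hx
    | succ n ih =>
      intro x hx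
      rw [e1] at hx
      rcases mem_insert.1 hx with rfl | hx
      · exact Or.inr ⟨n, by omega, rfl⟩
      · rcases ih x hx with h | ⟨i, hi, rfl⟩
        · exact Or.inl h
        · exact Or.inr ⟨i, by omega, rfl⟩
  have u2 : ∀ n, ∀ x ∈ (st n).2, x ∈ C0 ∨ ∃ i < n, x = g i := by
    intro n
    induction n with
    | zero => intro x hx; rw [hst0] at hx; exact Or.inl hx
    | succ n ih =>
      intro x hx
      rw [e2] at hx
      rcases mem_insert.1 hx with rfl | hx
      · exact Or.inr ⟨n, by omega, rfl⟩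
      · rcases ih x hx with h | ⟨i, hi, rfl⟩
        · exact Or.inl h
        · exact Or.inr ⟨i, by omega, rfl⟩
  have mb : StrictMono b := strictMono_nat_of_lt_succ fun n => (hS (n + 1)).2.2.2.1 _ (m1 n (n + 1) (by omega))
  have mg : StrictMono g := strictMono_nat_of_lt_succ fun n => (hS (n + 1)).2.2.2.2.1 _ (m2 n (n + 1) (by omega))
  have k1 : ∀ n, n ≤ (st n).1.card := by
    intro n
    have h1 : (range n).image b ⊆ (st n).1 := by
      intro x hx
      obtain ⟨i, hi, rfl⟩ := mem_image.1 hx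
      exact m1 i n (mem_range.1 hi)
    have h2 := card_le_card h1
    rwa [Finset.card_image_of_injective _ mb.injective, card_range] at h2
  have k2 : ∀ n, n ≤ (st n).2.card := by
    intro n
    have h1 : (range n).image g ⊆ (st n).2 := by
      intro x hx
      obtain ⟨i, hi, rfl⟩ := mem_image.1 hx
      exact m2 i n (mem_range.1 hi)
    have h2 := card_le_card h1
    rwa [Finset.card_image_of_injective _ mg.injective, card_range] at h2
  -- stages with a given target
  have tgt : ∀ t N : ℕ, ∃ n, N ≤ n ∧ md n = some t := by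
    intro t N
    refine ⟨2 * Nat.pair t N + 1, ?_, ?_⟩
    · have := Nat.right_le_pair t N
      omega
    · rw [hmd, if_neg (by simp)]
      have e : (2 * Nat.pair t N + 1) / 2 = Nat.pair t N := by omega
      rw [e, Nat.unpair_pair]
  refine ⟨b, g, mb, mg, (hS 0).2.1, (hS 0).2.2.1, ?_, ?_, ?_, ?_⟩
  · intro i j
    rcases le_or_gt i j with h | h
    · refine (hS j).2.2.2.2.2.2.1 (b i) ?_
      rw [← e1]
      exact m1 i (j + 1) (by omega)
    · exact (hS i).2.2.2.2.2.1 (g j) (m2 j i h)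
  · have hlog : Tendsto (fun n : ℕ => Real.log (n : ℝ)) atTop atTop :=
      Real.tendsto_log_atTop.comp tendsto_natCast_atTop_atTop
    obtain ⟨n₁, hn₁⟩ := eventually_atTop.1 (hlog.eventually_ge_atTop (2 * n0 / c))
    refine ⟨max n₁ 1, fun n hn hev => ?_⟩
    have hn1 : n₁ ≤ n := (le_max_left _ _).trans hn
    have hn2 : 1 ≤ n := (le_max_right _ _).trans hn
    have hn0 : (0 : ℝ) < n := by exact_mod_cast hn2
    have hmn : md n = none := by rw [hmd, if_pos hev]
    have hl := hn₁ n hn1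
    rw [div_le_iff₀ hc] at hl
    constructor
    · have h1 := (hS n).2.2.2.2.2.2.2.2.1 hmn
      rw [← e1] at h1
      have h2 : Real.log n ≤ Real.log (st (n + 1)).1.card :=
        Real.log_le_log hn0 (by exact_mod_cast (Nat.le_succ n).trans (k1 (n + 1)))
      have h3 : ((st (n + 1)).1.filter (fun x => (x + g n).Prime)).card ≤
          n0 + ((range (n + 1)).filter (fun i => (b i + g n).Prime)).card := by
        have h4 : (st (n + 1)).1.filter (fun x => (x + g n).Prime) ⊆
            B0 ∪ ((range (n + 1)).filter (fun i => (b i + g n).Prime)).image b := by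
          intro x hx
          obtain ⟨q1, q2⟩ := mem_filter.1 hx
          rcases u1 (n + 1) x q1 with h | ⟨i, hi, rfl⟩
          · exact mem_union_left _ h
          · exact mem_union_right _ (mem_image_of_mem _ (mem_filter.2 ⟨mem_range.2 hi, q2⟩))
        refine (card_le_card h4).trans ((card_union_le _ _).trans ?_)
        have := Finset.card_image_le (s := (range (n + 1)).filter (fun i => (b i + g n).Prime)) (f := b)
        omega
      have h5 : (((st (n + 1)).1.filter (fun x => (x + g n).Prime)).card : ℝ) ≤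
          n0 + (((range (n + 1)).filter (fun i => (b i + g n).Prime)).card : ℝ) := by exact_mod_cast h3
      nlinarith [mul_le_mul_of_nonneg_left h2 hc.le]
    · have h1 := (hS n).2.2.2.2.2.2.2.1 hmn
      have h2 : Real.log n ≤ Real.log (st n).2.card :=
        Real.log_le_log hn0 (by exact_mod_cast k2 n)
      have h3 : ((st n).2.filter (fun x => (b n + x).Prime)).card ≤
          n0 + ((range n).filter (fun j => (b n + g j).Prime)).card := by
        have h4 : (st n).2.filter (fun x => (b n + x).Prime) ⊆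
            C0 ∪ ((range n).filter (fun j => (b n + g j).Prime)).image g := by
          intro x hx
          obtain ⟨q1, q2⟩ := mem_filter.1 hx
          rcases u2 n x q1 with h | ⟨i, hi, rfl⟩
          · exact mem_union_left _ h
          · exact mem_union_right _ (mem_image_of_mem _ (mem_filter.2 ⟨mem_range.2 hi, q2⟩))
        refine (card_le_card h4).trans ((card_union_le _ _).trans ?_)
        have := Finset.card_image_le (s := (range n).filter (fun j => (b n + g j).Prime)) (f := g)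
        omega
      have h5 : (((st n).2.filter (fun x => (b n + x).Prime)).card : ℝ) ≤
          n0 + (((range n).filter (fun j => (b n + g j).Prime)).card : ℝ) := by exact_mod_cast h3
      nlinarith [mul_le_mul_of_nonneg_left h2 hc.le]
  · intro j
    refine Set.infinite_of_not_bddAbove ?_
    rintro ⟨K, hK⟩
    obtain ⟨n, hn, hmn⟩ := tgt (g j) (max (K + 1) (j + 1))
    have h1 := (hS n).2.2.2.2.2.2.2.2.2.1 (g j) (m2 j n (by omega)) hmn
    have h2 := hK (show n ∈ {i : ℕ | (b i + g j).Prime} from h1)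
    omega
  · intro i
    refine Set.infinite_of_not_bddAbove ?_
    rintro ⟨K, hK⟩
    obtain ⟨n, hn, hmn⟩ := tgt (b i) (max (K + 1) (i + 1))
    have h1 := (hS n).2.2.2.2.2.2.2.2.2.2 (b i) (by rw [← e1]; exact m1 i (n + 1) (by omega)) hmn
    have h2 := hK (show n ∈ {j : ℕ | (b i + g j).Prime} from h1)
    omega

end Pool.Agent.Results.MP_3532bd_nt.SumsetNearlyPrime
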